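import Mathlib

/-!
# Tangential speed of parabolic semigroups of positive hyperbolic step (MP_ab13d2_an, Q1)

The semigroup of the disc whose Koenigs function maps the disc onto the half parabola region
`i {s² : 0 < Re s, 0 < Im s < π}` is parabolic of positive hyperbolic step, and its tangential
speed is at most `1/4 log t + O(1)`.
-/

set_option autoImplicit false

open Set Filter Topology

namespace Pool.Agent.Results.MP_ab13d2_an.HalfParabola

/-- The open unit disc. -/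
def Disc : Set ℂ := {z | ‖z‖ < 1}

/-- `T_z(w) = (z - w) / (1 - conj z * w)`. -/
noncomputable def T (z w : ℂ) : ℂ := (z - w) / (1 - (starRingEnd ℂ) z * w)

/-- The hyperbolic distance of the disc. -/
noncomputable def hdist (z w : ℂ) : ℝ := 1 / 2 * Real.log ((1 + ‖T z w‖) / (1 - ‖T z w‖))

/-- A continuous semigroup of holomorphic self-maps of the disc. -/
structure IsSemigroup (φ : ℝ → ℂ → ℂ) : Prop where
  mapsTo : ∀ t, 0 ≤ t → MapsTo (φ t) Disc Disc
  holomorphic : ∀ t, 0 ≤ t → DifferentiableOn ℂ (φ t) Disc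
  zero : ∀ z ∈ Disc, φ 0 z = z
  add : ∀ t s, 0 ≤ t → 0 ≤ s → ∀ z ∈ Disc, φ (t + s) z = φ t (φ s z)
  continuous : ∀ t₀, 0 ≤ t₀ → ∀ K ⊆ Disc, IsCompact K →
    TendstoUniformlyOn φ (φ t₀) (𝓝[Ici 0] t₀) K

/-- A non-elliptic semigroup: no fixed points in the disc for `t > 0`. -/
def IsNonElliptic (φ : ℝ → ℂ → ℂ) : Prop :=
  IsSemigroup φ ∧ ∀ t, 0 < t → ∀ z ∈ Disc, φ t z ≠ z

/-- `τ ∈ ∂𝔻` is the Denjoy-Wolff point of the semigroup. -/
def IsDenjoyWolff (φ : ℝ → ℂ → ℂ) (τ : ℂ) : Prop :=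
  ‖τ‖ = 1 ∧ ∀ K ⊆ Disc, IsCompact K → TendstoUniformlyOn φ (fun _ => τ) atTop K

/-- `h` is a Koenigs function: univalent with `h ∘ φ_t = h + i t`. -/
structure IsKoenigs (φ : ℝ → ℂ → ℂ) (h : ℂ → ℂ) : Prop where
  holomorphic : DifferentiableOn ℂ h Disc
  injective : InjOn h Disc
  eq : ∀ t : ℝ, 0 ≤ t → ∀ z ∈ Disc, h (φ t z) = h z + Complex.I * t

/-- `Ω = ⋃_{t ≥ 0} (h(𝔻) - i t)`. -/
def baseDomain (h : ℂ → ℂ) : Set ℂ :=
  {w | ∃ t : ℝ, 0 ≤ t ∧ ∃ z ∈ Disc, w = h z - Complex.I * t}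

/-- Parabolic of positive hyperbolic step: `Ω` is a translate of `{Re w > 0}` or `{Re w < 0}`. -/
def IsParabolicPositiveStep (φ : ℝ → ℂ → ℂ) : Prop :=
  IsNonElliptic φ ∧ ∃ h : ℂ → ℂ, IsKoenigs φ h ∧
    ∃ c : ℝ, baseDomain h = {w : ℂ | c < w.re} ∨ baseDomain h = {w : ℂ | w.re < c}

/-- `p` is a hyperbolic orthogonal projection of `z` to the diameter `(-1, 1) τ`: a point of the
diameter at minimal hyperbolic distance from `z`. -/
def IsProjection (τ z p : ℂ) : Prop :=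
  (∃ r ∈ Ioo (-1 : ℝ) 1, p = r * τ) ∧ ∀ r ∈ Ioo (-1 : ℝ) 1, hdist p z ≤ hdist (r * τ) z

/-- The hyperbolic orthogonal projection `π(z)` (it exists, see `exists_projection`). -/
noncomputable def proj (τ z : ℂ) : ℂ := Classical.epsilon (IsProjection τ z)

/-- The tangential speed `v^T(t) = ω(φ_t(0), π(φ_t(0)))`. -/
noncomputable def tangentialSpeed (φ : ℝ → ℂ → ℂ) (τ : ℂ) (t : ℝ) : ℝ :=
  hdist (φ t 0) (proj τ (φ t 0))

/-! ### The projection -/

theorem norm_T_comm (z w : ℂ) : ‖T z w‖ = ‖T w z‖ := by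
  rw [T, T, norm_div, norm_div, norm_sub_rev]
  congr 1
  rw [← Complex.norm_conj]
  congr 1
  simp [mul_comm]

theorem hdist_comm (z w : ℂ) : hdist z w = hdist w z := by
  rw [hdist, hdist, norm_T_comm]

theorem half_log_mono {x y : ℝ} (hx : 0 ≤ x) (hxy : x ≤ y) (hy : y < 1) :
    1 / 2 * Real.log ((1 + x) / (1 - x)) ≤ 1 / 2 * Real.log ((1 + y) / (1 - y)) := by
  have h1 : 0 < 1 - y := by linarith
  have h2 : 0 < 1 - x := by linarith
  apply mul_le_mul_of_nonneg_left _ (by norm_num)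
  apply Real.log_le_log (by positivity)
  rw [div_le_div_iff₀ h2 h1]
  nlinarith

theorem one_sub_conj_ne {z w : ℂ} (hz : ‖z‖ ≤ 1) (hw : ‖w‖ < 1) :
    1 - (starRingEnd ℂ) z * w ≠ 0 := by
  intro h
  have h1 : (starRingEnd ℂ) z * w = 1 := (sub_eq_zero.1 h).symm
  have h2 := congrArg norm h1
  rw [norm_mul, Complex.norm_conj, norm_one] at h2
  nlinarith [norm_nonneg z, norm_nonneg w]

theorem norm_T_lt {z w : ℂ} (hz : ‖z‖ < 1) (hw : ‖w‖ < 1) : ‖T z w‖ < 1 := by
  have h0 := one_sub_conj_ne hz.le hw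
  rw [T, norm_div, div_lt_one (norm_pos_iff.2 h0)]
  apply lt_of_pow_lt_pow_left₀ 2 (norm_nonneg _)
  rw [Complex.sq_norm, Complex.sq_norm, Complex.normSq_apply, Complex.normSq_apply]
  have h1 : z.re ^ 2 + z.im ^ 2 < 1 := by
    have := Complex.sq_norm z
    rw [Complex.normSq_apply] at this
    nlinarith [norm_nonneg z]
  have h2 : w.re ^ 2 + w.im ^ 2 < 1 := by
    have := Complex.sq_norm w
    rw [Complex.normSq_apply] at this
    nlinarith [norm_nonneg w]
  simp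
  nlinarith

theorem exists_projection {τ z : ℂ} (hτ : ‖τ‖ = 1) (hz : z ∈ Disc) : ∃ p, IsProjection τ z p := by
  have hz' : ‖z‖ < 1 := hz
  have hcont : ContinuousOn (fun r : ℝ => ‖T (r * τ) z‖) (Icc (-1) 1) := by
    apply ContinuousOn.norm
    simp only [T]
    apply ContinuousOn.div
    · fun_prop
    · have : Continuous fun r : ℝ => 1 - (starRingEnd ℂ) (r * τ) * z := by
        have := Complex.continuous_conj
        fun_prop
      exact this.continuousOn
    · intro r hr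
      apply one_sub_conj_ne _ hz'
      rw [norm_mul, hτ, mul_one, Complex.norm_real, Real.norm_eq_abs]
      exact abs_le.2 hr
  obtain ⟨r₀, hr₀, hmin⟩ := isCompact_Icc.exists_isMinOn (nonempty_Icc.2 (by norm_num)) hcont
  have h0 : ‖T (r₀ * τ) z‖ < 1 := by
    have := hmin (show (0 : ℝ) ∈ Icc (-1 : ℝ) 1 by constructor <;> norm_num)
    simp only [mem_ofPred_eq, Complex.ofReal_zero, zero_mul] at this
    refine this.trans_lt ?_
    simpa [T] using hz'
  have hbd : ∀ e : ℂ, ‖e‖ = 1 → ‖T e z‖ = 1 := by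
    intro e he
    have h1 : 1 - (starRingEnd ℂ) e * z = (starRingEnd ℂ) e * (e - z) := by
      have : (starRingEnd ℂ) e * e = 1 := by
        rw [mul_comm, Complex.mul_conj, Complex.normSq_eq_norm_sq, he]
        norm_num
      rw [mul_sub, this]
    have h2 : e - z ≠ 0 := by
      intro h
      rw [← sub_eq_zero.1 h, he] at hz'
      exact lt_irrefl _ hz'
    rw [T, h1, norm_div, norm_mul, Complex.norm_conj, he, one_mul,
      div_self (norm_ne_zero_iff.2 h2)]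
  have hr : r₀ ∈ Ioo (-1 : ℝ) 1 := by
    refine ⟨lt_of_le_of_ne hr₀.1 ?_, lt_of_le_of_ne hr₀.2 ?_⟩
    · rintro rfl
      rw [hbd _ (by simp [hτ])] at h0
      exact lt_irrefl _ h0
    · rintro rfl
      rw [hbd _ (by simp [hτ])] at h0
      exact lt_irrefl _ h0
  refine ⟨r₀ * τ, ⟨r₀, hr, rfl⟩, fun r hr' => ?_⟩
  apply half_log_mono (norm_nonneg _) (hmin ⟨hr'.1.le, hr'.2.le⟩)
  apply norm_T_lt _ hz'
  rw [norm_mul, hτ, mul_one, Complex.norm_real, Real.norm_eq_abs]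
  exact abs_lt.2 hr'

theorem proj_le {τ z : ℂ} (hτ : ‖τ‖ = 1) (hz : z ∈ Disc) {r : ℝ} (hr : r ∈ Ioo (-1 : ℝ) 1) :
    hdist z (proj τ z) ≤ hdist z (r * τ) := by
  have h := Classical.epsilon_spec (exists_projection hτ hz)
  rw [hdist_comm z, hdist_comm z]
  exact h.2 r hr

/-! ### The conformal map of the half strip onto the disc -/

/-- The half strip. -/
def S : Set ℂ := {s | 0 < s.re ∧ 0 < s.im ∧ s.im < Real.pi}

/-- The principal square root. -/
noncomputable def rt (w : ℂ) : ℂ := Complex.exp (Complex.log w / 2)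

theorem rt_sq {w : ℂ} (hw : w ≠ 0) : rt w ^ 2 = w := by
  rw [rt, ← Complex.exp_nat_mul]
  rw [show ((2 : ℕ) : ℂ) * (Complex.log w / 2) = Complex.log w by push_cast; ring]
  exact Complex.exp_log hw

theorem half_log_im (w : ℂ) : (Complex.log w / 2).im = Complex.arg w / 2 := by
  rw [show Complex.log w / 2 = ((1 / 2 : ℝ) : ℂ) * Complex.log w by push_cast; ring,
    Complex.im_ofReal_mul, Complex.log_im]
  ring

theorem rt_re_pos {w : ℂ} (hw : w ∈ Complex.slitPlane) : 0 < (rt w).re := by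
  rw [rt, Complex.exp_re]
  apply mul_pos (Real.exp_pos _)
  apply Real.cos_pos_of_mem_Ioo
  have h1 := Complex.mem_slitPlane_iff_arg.1 hw
  rw [half_log_im]
  have h3 := Complex.neg_pi_lt_arg w
  have h4 := Complex.arg_le_pi w
  have h5 : Complex.arg w < Real.pi := lt_of_le_of_ne h4 h1.1
  constructor <;> linarith

theorem eq_of_sq_eq {a b : ℂ} (ha : 0 < a.re) (hb : 0 < b.re) (h : a ^ 2 = b ^ 2) : a = b := by
  rcases sq_eq_sq_iff_eq_or_eq_neg.1 h with h | h
  · exact h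
  · rw [h, Complex.neg_re] at ha
    linarith

theorem rt_eq {a w : ℂ} (ha : 0 < a.re) (haw : a ^ 2 = w) (hw : w ∈ Complex.slitPlane) :
    rt w = a :=
  eq_of_sq_eq (rt_re_pos hw) ha (by rw [rt_sq (Complex.slitPlane_ne_zero hw), haw])

theorem sq_im (a : ℂ) : (a ^ 2).im = 2 * a.re * a.im := by
  rw [sq, Complex.mul_im]; ring

theorem sq_re (a : ℂ) : (a ^ 2).re = a.re ^ 2 - a.im ^ 2 := by
  rw [sq, Complex.mul_re]; ring

theorem slit_of_im {w : ℂ} (hw : w.im ≠ 0) : w ∈ Complex.slitPlane :=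
  Complex.mem_slitPlane_iff.2 (Or.inr hw)

/-- `cosh` followed by the Cayley map: a conformal map of `S` onto the disc. -/
noncomputable def Φ (s : ℂ) : ℂ := (Complex.cosh s - Complex.I) / (Complex.cosh s + Complex.I)

/-- The inverse Cayley map. -/
noncomputable def cay (z : ℂ) : ℂ := Complex.I * (1 + z) / (1 - z)

/-- The square root occurring in the inverse of `cosh`. -/
noncomputable def R (ζ : ℂ) : ℂ := rt ((ζ + 1) / (ζ - 1))

/-- The inverse of `Φ`. -/
noncomputable def Ψ (z : ℂ) : ℂ := Complex.log ((R (cay z) + 1) / (R (cay z) - 1))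

theorem cosh_im (s : ℂ) : (Complex.cosh s).im = Real.sinh s.re * Real.sin s.im := by
  have : Complex.cosh s = Complex.cosh (s.re + s.im * Complex.I) := by
    rw [Complex.re_add_im]
  rw [this, Complex.cosh_add, Complex.cosh_mul_I, Complex.sinh_mul_I]
  simp [← Complex.ofReal_cosh, ← Complex.ofReal_sinh, ← Complex.ofReal_cos, ← Complex.ofReal_sin,
    Complex.ofReal_re, Complex.ofReal_im]

theorem cosh_re (s : ℂ) : (Complex.cosh s).re = Real.cosh s.re * Real.cos s.im := by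
  have : Complex.cosh s = Complex.cosh (s.re + s.im * Complex.I) := by
    rw [Complex.re_add_im]
  rw [this, Complex.cosh_add, Complex.cosh_mul_I, Complex.sinh_mul_I]
  simp [← Complex.ofReal_cosh, ← Complex.ofReal_sinh, ← Complex.ofReal_cos, ← Complex.ofReal_sin,
    Complex.ofReal_re, Complex.ofReal_im]

theorem cosh_im_pos {s : ℂ} (hs : s ∈ S) : 0 < (Complex.cosh s).im := by
  rw [cosh_im]
  exact mul_pos (Real.sinh_pos_iff.2 hs.1) (Real.sin_pos_of_pos_of_lt_pi hs.2.1 hs.2.2)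

theorem add_I_ne {ζ : ℂ} (h : 0 < ζ.im) : ζ + Complex.I ≠ 0 := by
  intro h0
  have := congrArg Complex.im h0
  simp at this
  linarith

theorem cayley_mem {ζ : ℂ} (h : 0 < ζ.im) : (ζ - Complex.I) / (ζ + Complex.I) ∈ Disc := by
  change ‖_‖ < 1
  rw [norm_div, div_lt_one (norm_pos_iff.2 (add_I_ne h))]
  apply lt_of_pow_lt_pow_left₀ 2 (norm_nonneg _)
  rw [Complex.sq_norm, Complex.sq_norm, Complex.normSq_apply, Complex.normSq_apply]
  simp
  nlinarith

theorem Φ_mem {s : ℂ} (hs : s ∈ S) : Φ s ∈ Disc := cayley_mem (cosh_im_pos hs)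

theorem one_sub_ne {z : ℂ} (hz : z ∈ Disc) : 1 - z ≠ 0 := by
  intro h
  have h1 : ‖z‖ < 1 := hz
  rw [← sub_eq_zero.1 h, norm_one] at h1
  exact lt_irrefl _ h1

theorem cay_im_pos {z : ℂ} (hz : z ∈ Disc) : 0 < (cay z).im := by
  have h1 : ‖z‖ < 1 := hz
  have h2 := one_sub_ne hz
  have h3 : z.re ^ 2 + z.im ^ 2 < 1 := by
    have := Complex.sq_norm z
    rw [Complex.normSq_apply] at this
    nlinarith [norm_nonneg z]
  have h4 : 0 < Complex.normSq (1 - z) := Complex.normSq_pos.2 h2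
  rw [cay, Complex.div_im]
  simp
  apply div_lt_div_of_pos_right _ h4
  nlinarith

theorem cay_cayley {ζ : ℂ} (h : 0 < ζ.im) : cay ((ζ - Complex.I) / (ζ + Complex.I)) = ζ := by
  have h1 := add_I_ne h
  have h2 : 1 - (ζ - Complex.I) / (ζ + Complex.I) = 2 * Complex.I / (ζ + Complex.I) := by
    field_simp
    ring
  have h3 : 1 + (ζ - Complex.I) / (ζ + Complex.I) = 2 * ζ / (ζ + Complex.I) := by
    field_simp
    ring
  have h4 := Complex.I_ne_zero
  rw [cay, h2, h3]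
  field_simp

theorem cayley_cay {z : ℂ} (hz : z ∈ Disc) :
    (cay z - Complex.I) / (cay z + Complex.I) = z := by
  have h1 := one_sub_ne hz
  have h2 := add_I_ne (cay_im_pos hz)
  rw [div_eq_iff h2, cay]
  have h4 := Complex.I_ne_zero
  field_simp
  ring

theorem sub_one_ne {ζ : ℂ} (h : ζ.im ≠ 0) : ζ - 1 ≠ 0 := by
  intro h0
  apply h
  rw [sub_eq_zero.1 h0, Complex.one_im]

theorem add_one_ne {ζ : ℂ} (h : ζ.im ≠ 0) : ζ + 1 ≠ 0 := by
  intro h0
  apply h
  rw [eq_neg_of_add_eq_zero_left h0]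
  simp

/-- The imaginary part of `(ζ + 1) / (ζ - 1)`. -/
theorem quot_im {ζ : ℂ} : ((ζ + 1) / (ζ - 1)).im = -2 * ζ.im / Complex.normSq (ζ - 1) := by
  rw [Complex.div_im]
  simp
  rw [← sub_div]
  congr 1
  ring

theorem quot_re {ζ : ℂ} :
    ((ζ + 1) / (ζ - 1)).re = (Complex.normSq ζ - 1) / Complex.normSq (ζ - 1) := by
  rw [Complex.div_re]
  simp
  rw [← add_div]
  congr 1
  rw [Complex.normSq_apply]
  ring

theorem R_spec {ζ : ℂ} (h : 0 < ζ.im) :
    R ζ ^ 2 = (ζ + 1) / (ζ - 1) ∧ 0 < (R ζ).re ∧ (R ζ).im < 0 := by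
  have h1 := sub_one_ne h.ne'
  have h2 : ((ζ + 1) / (ζ - 1)).im < 0 := by
    rw [quot_im]
    apply div_neg_of_neg_of_pos (by linarith) (Complex.normSq_pos.2 h1)
  have h3 := slit_of_im h2.ne
  have h4 := rt_re_pos h3
  have h5 := rt_sq (Complex.slitPlane_ne_zero h3)
  refine ⟨h5, h4, ?_⟩
  have h6 := sq_im (R ζ)
  rw [R, h5] at h6
  by_contra hcon
  push Not at hcon
  rw [R] at hcon
  nlinarith [mul_nonneg h4.le hcon]

theorem Ψ_arg {ζ : ℂ} (h : 0 < ζ.im) :
    let u := (R ζ + 1) / (R ζ - 1)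
    1 < ‖u‖ ∧ 0 < u.im ∧ (u + u⁻¹) / 2 = ζ := by
  intro u
  obtain ⟨h1, h2, h3⟩ := R_spec h
  have h4 : R ζ - 1 ≠ 0 := sub_one_ne h3.ne
  have h5 : R ζ + 1 ≠ 0 := add_one_ne h3.ne
  have h6 : ζ - 1 ≠ 0 := sub_one_ne h.ne'
  refine ⟨?_, ?_, ?_⟩
  · rw [norm_div, one_lt_div (norm_pos_iff.2 h4)]
    apply lt_of_pow_lt_pow_left₀ 2 (norm_nonneg _)
    rw [Complex.sq_norm, Complex.sq_norm, Complex.normSq_apply, Complex.normSq_apply]
    simp
    nlinarith
  · rw [quot_im]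
    exact div_pos (by linarith) (Complex.normSq_pos.2 h4)
  · have h7 : R ζ ^ 2 - 1 ≠ 0 := by
      rw [show R ζ ^ 2 - 1 = (R ζ - 1) * (R ζ + 1) by ring]
      exact mul_ne_zero h4 h5
    have h8 : (u + u⁻¹) / 2 = (R ζ ^ 2 + 1) / (R ζ ^ 2 - 1) := by
      change ((R ζ + 1) / (R ζ - 1) + ((R ζ + 1) / (R ζ - 1))⁻¹) / 2 = _
      rw [show R ζ ^ 2 - 1 = (R ζ - 1) * (R ζ + 1) by ring]
      field_simp
      ring
    rw [h8, div_eq_iff h7, h1]
    field_simp
    ring

theorem Ψ_mem {z : ℂ} (hz : z ∈ Disc) : Ψ z ∈ S := by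
  obtain ⟨h1, h2, -⟩ := Ψ_arg (cay_im_pos hz)
  refine ⟨?_, ?_, ?_⟩
  · rw [Ψ, Complex.log_re]
    exact Real.log_pos h1
  · rw [Ψ, Complex.log_im]
    apply lt_of_le_of_ne (Complex.arg_nonneg_iff.2 h2.le)
    intro h
    have := (Complex.arg_eq_zero_iff.1 h.symm).2
    linarith
  · rw [Ψ, Complex.log_im]
    apply lt_of_le_of_ne (Complex.arg_le_pi _)
    intro h
    have := (Complex.arg_eq_pi_iff.1 h).2
    linarith

theorem cosh_Ψ {z : ℂ} (hz : z ∈ Disc) : Complex.cosh (Ψ z) = cay z := by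
  obtain ⟨h1, h2, h3⟩ := Ψ_arg (cay_im_pos hz)
  have h0 : (R (cay z) + 1) / (R (cay z) - 1) ≠ 0 := by
    intro h
    rw [h, norm_zero] at h1
    linarith
  rw [Complex.cosh, Ψ, Complex.exp_neg, Complex.exp_log h0]
  exact h3

theorem Φ_Ψ {z : ℂ} (hz : z ∈ Disc) : Φ (Ψ z) = z := by
  rw [Φ, cosh_Ψ hz, cayley_cay hz]

theorem Ψ_Φ {s : ℂ} (hs : s ∈ S) : Ψ (Φ s) = s := by
  have h1 := cosh_im_pos hs
  have h2 : cay (Φ s) = Complex.cosh s := cay_cayley h1
  set u := Complex.exp s with hu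
  have hu0 : u ≠ 0 := Complex.exp_ne_zero s
  have hun : 1 < ‖u‖ := by
    rw [hu, Complex.norm_exp]
    exact Real.one_lt_exp_iff.2 hs.1
  have hui : 0 < u.im := by
    rw [hu, Complex.exp_im]
    exact mul_pos (Real.exp_pos _) (Real.sin_pos_of_pos_of_lt_pi hs.2.1 hs.2.2)
  have hu1 : u - 1 ≠ 0 := sub_one_ne hui.ne'
  have hcosh : Complex.cosh s = (u + u⁻¹) / 2 := by rw [Complex.cosh, Complex.exp_neg]
  have hv : ((u + 1) / (u - 1)) ^ 2 = (Complex.cosh s + 1) / (Complex.cosh s - 1) := by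
    have h3 : Complex.cosh s - 1 ≠ 0 := sub_one_ne h1.ne'
    rw [div_pow, div_eq_div_iff (pow_ne_zero 2 hu1) h3, hcosh]
    field_simp
    ring
  have hre : 0 < ((u + 1) / (u - 1)).re := by
    rw [quot_re]
    apply div_pos _ (Complex.normSq_pos.2 hu1)
    rw [Complex.normSq_eq_norm_sq]
    nlinarith
  have hR : R (Complex.cosh s) = (u + 1) / (u - 1) := by
    apply rt_eq hre hv
    apply slit_of_im
    rw [quot_im]
    have h3 : Complex.cosh s - 1 ≠ 0 := sub_one_ne h1.ne'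
    apply ne_of_lt
    apply div_neg_of_neg_of_pos (by linarith) (Complex.normSq_pos.2 h3)
  have huu : ((u + 1) / (u - 1) + 1) / ((u + 1) / (u - 1) - 1) = u := by
    have e1 : (u + 1) / (u - 1) + 1 = 2 * u / (u - 1) := by field_simp; ring
    have e2 : (u + 1) / (u - 1) - 1 = 2 / (u - 1) := by field_simp; ring
    rw [e1, e2]
    field_simp
  rw [Ψ, h2, hR, huu, hu]
  apply Complex.log_exp
  · linarith [hs.2.1, Real.pi_pos]
  · exact hs.2.2.le

theorem Φ_differentiable : DifferentiableOn ℂ Φ S := by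
  intro s hs
  apply DifferentiableAt.differentiableWithinAt
  apply DifferentiableAt.div
  · exact Complex.differentiable_cosh.differentiableAt.sub_const _
  · exact Complex.differentiable_cosh.differentiableAt.add_const _
  · exact add_I_ne (cosh_im_pos hs)

theorem rt_differentiableAt {w : ℂ} (hw : w ∈ Complex.slitPlane) : DifferentiableAt ℂ rt w :=
  ((Complex.differentiableAt_log hw).div_const 2).cexp

theorem Ψ_differentiable : DifferentiableOn ℂ Ψ Disc := by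
  intro z hz
  apply DifferentiableAt.differentiableWithinAt
  have h1 := cay_im_pos hz
  obtain ⟨h2, h3, h4⟩ := R_spec h1
  obtain ⟨h5, h6, h7⟩ := Ψ_arg h1
  have hc : DifferentiableAt ℂ cay z := by
    unfold cay
    apply DifferentiableAt.div (by fun_prop) (by fun_prop) (one_sub_ne hz)
  have hR : DifferentiableAt ℂ (fun z => R (cay z)) z := by
    unfold R
    have h8 : ((cay z + 1) / (cay z - 1)).im ≠ 0 := by
      rw [quot_im]
      apply ne_of_lt
      exact div_neg_of_neg_of_pos (by linarith) (Complex.normSq_pos.2 (sub_one_ne h1.ne'))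
    exact DifferentiableAt.comp (g := rt) z (rt_differentiableAt (slit_of_im h8))
      ((hc.add_const 1).div (hc.sub_const 1) (sub_one_ne h1.ne'))
  unfold Ψ
  apply DifferentiableAt.clog
  · exact (hR.add_const 1).div (hR.sub_const 1) (sub_one_ne h4.ne)
  · exact slit_of_im h6.ne'

/-! ### The semigroup -/

/-- The flow `s ↦ √(s² + t)` on the half strip. -/
noncomputable def ψ (t : ℝ) (s : ℂ) : ℂ := rt (s ^ 2 + t)

/-- The semigroup on the disc. -/
noncomputable def φ (t : ℝ) (z : ℂ) : ℂ := Φ (ψ t (Ψ z))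

theorem sq_add_im (s : ℂ) (t : ℝ) : (s ^ 2 + t).im = 2 * s.re * s.im := by
  rw [Complex.add_im, sq_im, Complex.ofReal_im, add_zero]

theorem sq_add_slit {s : ℂ} (hs : s ∈ S) (t : ℝ) : s ^ 2 + t ∈ Complex.slitPlane := by
  apply slit_of_im
  rw [sq_add_im]
  have h1 := hs.1
  have h2 := hs.2.1
  positivity

theorem ψ_sq {s : ℂ} (hs : s ∈ S) (t : ℝ) : ψ t s ^ 2 = s ^ 2 + t :=
  rt_sq (Complex.slitPlane_ne_zero (sq_add_slit hs t))

theorem ψ_re_pos {s : ℂ} (hs : s ∈ S) (t : ℝ) : 0 < (ψ t s).re := rt_re_pos (sq_add_slit hs t)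

theorem ψ_prod {s : ℂ} (hs : s ∈ S) (t : ℝ) : (ψ t s).re * (ψ t s).im = s.re * s.im := by
  have := congrArg Complex.im (ψ_sq hs t)
  rw [sq_im, sq_add_im] at this
  linarith

theorem ψ_diff {s : ℂ} (hs : s ∈ S) (t : ℝ) :
    (ψ t s).re ^ 2 - (ψ t s).im ^ 2 = s.re ^ 2 - s.im ^ 2 + t := by
  have := congrArg Complex.re (ψ_sq hs t)
  rw [sq_re, Complex.add_re, sq_re, Complex.ofReal_re] at this
  exact this

theorem ψ_im_pos {s : ℂ} (hs : s ∈ S) (t : ℝ) : 0 < (ψ t s).im := by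
  have h1 := ψ_prod hs t
  have h2 := ψ_re_pos hs t
  have h3 : 0 < s.re * s.im := mul_pos hs.1 hs.2.1
  rw [← h1] at h3
  exact (mul_pos_iff_of_pos_left h2).1 h3

theorem ψ_mem {s : ℂ} (hs : s ∈ S) {t : ℝ} (ht : 0 ≤ t) : ψ t s ∈ S := by
  refine ⟨ψ_re_pos hs t, ψ_im_pos hs t, lt_of_le_of_lt ?_ hs.2.2⟩
  by_contra hcon
  push Not at hcon
  have h1 := ψ_prod hs t
  have h2 := ψ_re_pos hs t
  have h3 := ψ_diff hs t
  have h4 := hs.1
  have h5 := hs.2.1
  have h6 : (ψ t s).re < s.re := by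
    by_contra hc
    push Not at hc
    have : s.re * s.im < (ψ t s).re * (ψ t s).im := by
      calc s.re * s.im < s.re * (ψ t s).im := mul_lt_mul_of_pos_left hcon h4
        _ ≤ (ψ t s).re * (ψ t s).im := mul_le_mul_of_nonneg_right hc (ψ_im_pos hs t).le
    linarith
  nlinarith

theorem ψ_zero {s : ℂ} (hs : s ∈ S) : ψ 0 s = s :=
  rt_eq hs.1 (by simp) (sq_add_slit hs 0)

theorem ψ_add {s : ℂ} (hs : s ∈ S) (t t' : ℝ) : ψ (t + t') s = ψ t (ψ t' s) := by
  rw [ψ, ψ, ψ_sq hs t']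
  congr 1
  push_cast
  ring

theorem φ_add {z : ℂ} (hz : z ∈ Disc) (t : ℝ) {t' : ℝ} (ht' : 0 ≤ t') :
    φ (t + t') z = φ t (φ t' z) := by
  rw [φ, φ, φ, Ψ_Φ (ψ_mem (Ψ_mem hz) ht'), ψ_add (Ψ_mem hz)]

theorem ψ_differentiable {t : ℝ} : DifferentiableOn ℂ (ψ t) S := by
  intro s hs
  apply DifferentiableAt.differentiableWithinAt
  exact DifferentiableAt.comp (g := rt) s (rt_differentiableAt (sq_add_slit hs t)) (by fun_prop)

theorem isOpen_Disc : IsOpen Disc := isOpen_lt continuous_norm continuous_const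

theorem isOpen_S : IsOpen S :=
  (isOpen_lt continuous_const Complex.continuous_re).inter
    ((isOpen_lt continuous_const Complex.continuous_im).inter
      (isOpen_lt Complex.continuous_im continuous_const))

theorem joint_continuousAt {t₀ : ℝ} (ht : 0 ≤ t₀) {z₀ : ℂ} (hz : z₀ ∈ Disc) :
    ContinuousAt (fun p : ℝ × ℂ => φ p.1 p.2) (t₀, z₀) := by
  have h1 : ContinuousAt Ψ z₀ := (Ψ_differentiable.differentiableAt (isOpen_Disc.mem_nhds hz)).continuousAt
  have h2 : ContinuousAt (fun p : ℝ × ℂ => Ψ p.2) (t₀, z₀) :=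
    ContinuousAt.comp (g := Ψ) (f := fun p : ℝ × ℂ => p.2) h1 continuousAt_snd
  have h3 : ContinuousAt (fun p : ℝ × ℂ => Ψ p.2 ^ 2 + (p.1 : ℂ)) (t₀, z₀) :=
    (h2.pow 2).add (Complex.continuous_ofReal.continuousAt.comp continuousAt_fst)
  have h4 : ContinuousAt rt (Ψ z₀ ^ 2 + (t₀ : ℂ)) :=
    (rt_differentiableAt (sq_add_slit (Ψ_mem hz) t₀)).continuousAt
  have h5 : ContinuousAt (fun p : ℝ × ℂ => ψ p.1 (Ψ p.2)) (t₀, z₀) :=
    ContinuousAt.comp (g := rt) (f := fun p : ℝ × ℂ => Ψ p.2 ^ 2 + (p.1 : ℂ)) h4 h3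
  have h6 : ContinuousAt Φ (ψ t₀ (Ψ z₀)) :=
    (Φ_differentiable.differentiableAt (isOpen_S.mem_nhds (ψ_mem (Ψ_mem hz) ht))).continuousAt
  exact ContinuousAt.comp (g := Φ) (f := fun p : ℝ × ℂ => ψ p.1 (Ψ p.2)) h6 h5

theorem isSemigroup : IsSemigroup φ where
  mapsTo t ht z hz := Φ_mem (ψ_mem (Ψ_mem hz) ht)
  holomorphic t ht := by
    apply Φ_differentiable.comp (ψ_differentiable.comp Ψ_differentiable fun z hz => Ψ_mem hz)
    intro z hz
    exact ψ_mem (Ψ_mem hz) ht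
  zero z hz := by rw [φ, ψ_zero (Ψ_mem hz), Φ_Ψ hz]
  add t s _ hs z hz := φ_add hz t hs
  continuous t₀ ht K hK hKc := by
    have h : TendstoLocallyUniformlyOn φ (φ t₀) (𝓝[Ici 0] t₀) Disc := by
      rw [Metric.tendstoLocallyUniformlyOn_iff]
      intro ε hε x hx
      have h1 := joint_continuousAt ht hx
      have h2 : ∀ᶠ p : ℝ × ℂ in 𝓝 (t₀, x), dist (φ p.1 p.2) (φ t₀ x) < ε / 2 :=
        h1.eventually (Metric.ball_mem_nhds _ (half_pos hε))
      rw [nhds_prod_eq, eventually_prod_iff] at h2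
      obtain ⟨p, hp, q, hq, hpq⟩ := h2
      refine ⟨{y | q y}, nhdsWithin_le_nhds hq, ?_⟩
      filter_upwards [nhdsWithin_le_nhds hp] with t ht' y hy
      have e1 := hpq ht' hy
      have e2 := hpq hp.self_of_nhds hy
      have e3 := dist_triangle_right (φ t₀ y) (φ t y) (φ t₀ x)
      simp only at e1 e2
      linarith
    exact (tendstoLocallyUniformlyOn_iff_forall_isCompact isOpen_Disc).1 h K hK hKc

/-- The Koenigs function. -/
noncomputable def koenigs (z : ℂ) : ℂ := Complex.I * Ψ z ^ 2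

theorem koenigs_eq (t : ℝ) (ht : 0 ≤ t) {z : ℂ} (hz : z ∈ Disc) :
    koenigs (φ t z) = koenigs z + Complex.I * t := by
  rw [koenigs, koenigs, φ, Ψ_Φ (ψ_mem (Ψ_mem hz) ht), ψ_sq (Ψ_mem hz)]
  ring

theorem isKoenigs : IsKoenigs φ koenigs where
  holomorphic := (Ψ_differentiable.pow 2).const_mul _
  injective := by
    intro z hz w hw h
    have h1 : Ψ z ^ 2 = Ψ w ^ 2 := mul_left_cancel₀ Complex.I_ne_zero h
    have h2 := eq_of_sq_eq (Ψ_mem hz).1 (Ψ_mem hw).1 h1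
    rw [← Φ_Ψ hz, h2, Φ_Ψ hw]
  eq t ht z hz := koenigs_eq t ht hz

theorem isNonElliptic : IsNonElliptic φ := by
  refine ⟨isSemigroup, fun t ht z hz h => ?_⟩
  have h1 := koenigs_eq t ht.le hz
  rw [h] at h1
  have h2 : Complex.I * (t : ℂ) = 0 := by linear_combination -h1
  rcases mul_eq_zero.1 h2 with h3 | h3
  · exact Complex.I_ne_zero h3
  · exact ht.ne' (by exact_mod_cast h3)

theorem baseDomain_eq : baseDomain koenigs = {w : ℂ | w.re < 0} := by
  ext w
  constructor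
  · rintro ⟨t, ht, z, hz, rfl⟩
    have h1 : (koenigs z - Complex.I * t).re = -(2 * (Ψ z).re * (Ψ z).im) := by
      rw [koenigs, Complex.sub_re, Complex.mul_re, sq_im]
      simp
    have h2 := (Ψ_mem hz).1
    have h3 := (Ψ_mem hz).2.1
    change (koenigs z - Complex.I * t).re < 0
    rw [h1]
    have : 0 < 2 * (Ψ z).re * (Ψ z).im := by positivity
    linarith
  · intro hw
    have hw' : w.re < 0 := hw
    set W : ℂ := -Complex.I * w with hW
    have hWi : W.im = -w.re := by simp [hW]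
    have hWr : W.re = w.im := by simp [hW]
    set t : ℝ := max 0 (W.im ^ 2 - W.re) with ht
    have ht0 : 0 ≤ t := le_max_left _ _
    have ht1 : W.im ^ 2 - W.re ≤ t := le_max_right _ _
    have him : (W + t).im = W.im := by simp
    have hre : (W + t).re = W.re + t := by simp
    have hslit : W + t ∈ Complex.slitPlane := slit_of_im (by rw [him, hWi]; linarith)
    set a := rt (W + t) with ha
    have ha1 : 0 < a.re := rt_re_pos hslit
    have ha2 : a ^ 2 = W + t := rt_sq (Complex.slitPlane_ne_zero hslit)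
    have ha3 : 2 * a.re * a.im = W.im := by rw [← sq_im, ha2, him]
    have ha4 : a.re ^ 2 - a.im ^ 2 = W.re + t := by rw [← sq_re, ha2, hre]
    have hWpos : 0 < W.im := by rw [hWi]; linarith
    have ha5 : 0 < a.im := by
      by_contra hc
      push Not at hc
      nlinarith [mul_nonneg ha1.le (neg_nonneg.2 hc)]
    have ha6 : W.im ≤ a.re := by
      apply le_of_sq_le_sq _ ha1.le
      nlinarith [sq_nonneg a.im]
    have haS : a ∈ S := by
      refine ⟨ha1, ha5, ?_⟩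
      have h2 : a.im ≤ 1 / 2 := by
        by_contra hc
        push Not at hc
        nlinarith
      linarith [Real.pi_gt_three]
    refine ⟨t, ht0, Φ a, Φ_mem haS, ?_⟩
    rw [koenigs, Ψ_Φ haS, ha2, hW]
    have := Complex.I_mul_I
    linear_combination w * this

/-! ### Estimates -/

theorem norm_cosh_sq (s : ℂ) :
    ‖Complex.cosh s‖ ^ 2 = Real.sinh s.re ^ 2 + Real.cos s.im ^ 2 := by
  rw [Complex.sq_norm, Complex.normSq_apply, cosh_re, cosh_im]
  have h1 := Real.cosh_sq s.re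
  have h2 := Real.sin_sq_add_cos_sq s.im
  have h3 : Real.sin s.im ^ 2 = 1 - Real.cos s.im ^ 2 := by linarith
  calc _ = Real.cosh s.re ^ 2 * Real.cos s.im ^ 2 + Real.sinh s.re ^ 2 * Real.sin s.im ^ 2 := by
        ring
    _ = _ := by rw [h1, h3]; ring

theorem re_le_norm_cosh {s : ℂ} (hs : 0 ≤ s.re) : s.re ≤ ‖Complex.cosh s‖ := by
  apply le_of_sq_le_sq _ (norm_nonneg _)
  rw [norm_cosh_sq]
  have h1 : s.re ≤ Real.sinh s.re := Real.self_le_sinh_iff.2 hs
  nlinarith [sq_nonneg (Real.cos s.im)]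

theorem ψ_re_sq {s : ℂ} (hs : s ∈ S) (t : ℝ) : t - Real.pi ^ 2 ≤ (ψ t s).re ^ 2 := by
  have h1 := ψ_diff hs t
  have h2 := hs.2.1
  have h3 := hs.2.2
  nlinarith [sq_nonneg s.re, sq_nonneg (ψ t s).im]

theorem isDenjoyWolff : IsDenjoyWolff φ 1 := by
  refine ⟨norm_one, fun K hK _ => ?_⟩
  rw [Metric.tendstoUniformlyOn_iff]
  intro ε hε
  have hlarge : ∀ᶠ t : ℝ in atTop, (2 / ε + 2) ^ 2 + Real.pi ^ 2 ≤ t := eventually_ge_atTop _
  filter_upwards [hlarge] with t ht z hz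
  have hs := Ψ_mem (hK hz)
  have ht0 : 0 ≤ t := le_trans (by positivity) ht
  have h1 := ψ_mem hs ht0
  have h2 := ψ_re_sq hs t
  have h3 : 2 / ε + 2 ≤ (ψ t (Ψ z)).re := by
    apply le_of_sq_le_sq _ h1.1.le
    linarith
  have h4 := re_le_norm_cosh h1.1.le
  set ζ := Complex.cosh (ψ t (Ψ z)) with hζ
  have h5 := add_I_ne (cosh_im_pos h1)
  have h6 : (1 : ℂ) - φ t z = 2 * Complex.I / (ζ + Complex.I) := by
    rw [φ, Φ, ← hζ]
    rw [← hζ] at h5
    field_simp
    ring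
  have h7 : 2 / ε < ‖ζ + Complex.I‖ := by
    have : ‖ζ‖ ≤ ‖ζ + Complex.I‖ + 1 := by
      have h8 := norm_sub_le (ζ + Complex.I) Complex.I
      rwa [add_sub_cancel_right, Complex.norm_I] at h8
    linarith
  rw [dist_eq_norm, h6, norm_div, norm_mul, Complex.norm_I, mul_one, Complex.norm_ofNat]
  rw [div_lt_iff₀ hε] at h7
  rw [div_lt_iff₀ (lt_of_le_of_lt (by positivity) (lt_of_lt_of_le (by positivity : (0 : ℝ) < 2 / ε)
    (by rw [div_le_iff₀ hε]; exact h7.le)))]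
  linarith

/-- Distance of a point of the disc to the real diameter, in half plane coordinates. -/
theorem hdist_le {ζ : ℂ} (hζ : 0 < ζ.im) :
    hdist ((ζ - Complex.I) / (ζ + Complex.I)) (((‖ζ‖ - 1) / (‖ζ‖ + 1) : ℝ) : ℂ) ≤
      1 / 2 * Real.log (4 * ‖ζ‖ / ζ.im) := by
  have hρ : 0 < ‖ζ‖ := lt_of_lt_of_le hζ (Complex.im_le_norm ζ)
  have hle : ζ.im ≤ ‖ζ‖ := Complex.im_le_norm ζ
  set ρ := ‖ζ‖ with hρd
  have hn : ζ.re ^ 2 + ζ.im ^ 2 = ρ ^ 2 := by
    rw [hρd, Complex.sq_norm, Complex.normSq_apply]; ring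
  have h1 := add_I_ne hζ
  have h1' : (starRingEnd ℂ) ζ - Complex.I ≠ 0 := by
    intro h
    apply h1
    have := congrArg (starRingEnd ℂ) h
    simpa using this
  have hρ1 : (ρ : ℂ) + 1 ≠ 0 := by
    have : (0 : ℝ) < ρ + 1 := by positivity
    exact_mod_cast this.ne'
  set z := (ζ - Complex.I) / (ζ + Complex.I) with hz
  have e1 : z - (((ρ - 1) / (ρ + 1) : ℝ) : ℂ) =
      2 * (ζ - Complex.I * ρ) / ((ζ + Complex.I) * (ρ + 1)) := by
    rw [hz]
    push_cast
    field_simp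
    ring
  have e2 : 1 - (starRingEnd ℂ) z * (((ρ - 1) / (ρ + 1) : ℝ) : ℂ) =
      2 * ((starRingEnd ℂ) ζ - Complex.I * ρ) / (((starRingEnd ℂ) ζ - Complex.I) * (ρ + 1)) := by
    have : (starRingEnd ℂ) z = ((starRingEnd ℂ) ζ + Complex.I) / ((starRingEnd ℂ) ζ - Complex.I) := by
      rw [hz, map_div₀, map_sub, map_add, Complex.conj_I]
      ring
    rw [this]
    push_cast
    field_simp
    ring
  have e3 : ‖ζ + Complex.I‖ = ‖(starRingEnd ℂ) ζ - Complex.I‖ := by
    rw [← Complex.norm_conj (ζ + Complex.I)]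
    congr 1
    simp [sub_eq_add_neg]
  set x := ‖T z (((ρ - 1) / (ρ + 1) : ℝ) : ℂ)‖ with hx
  have hxe : x = ‖ζ - Complex.I * ρ‖ / ‖(starRingEnd ℂ) ζ - Complex.I * ρ‖ := by
    rw [hx, T, e1, e2, norm_div, norm_div, norm_div, norm_mul, norm_mul, norm_mul, norm_mul, e3]
    have h2 : ‖(starRingEnd ℂ) ζ - Complex.I‖ ≠ 0 := norm_ne_zero_iff.2 h1'
    have h3 : ‖(ρ : ℂ) + 1‖ ≠ 0 := norm_ne_zero_iff.2 hρ1
    have h4 : ‖(2 : ℂ)‖ ≠ 0 := by norm_num
    have h5 : ‖(starRingEnd ℂ) ζ - Complex.I * ρ‖ ≠ 0 := by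
      apply norm_ne_zero_iff.2
      intro h
      have := congrArg Complex.im h
      simp at this
      linarith
    field_simp
  have n1 : ‖ζ - Complex.I * ρ‖ ^ 2 = 2 * ρ * (ρ - ζ.im) := by
    rw [Complex.sq_norm, Complex.normSq_apply]
    simp
    nlinarith
  have n2 : ‖(starRingEnd ℂ) ζ - Complex.I * ρ‖ ^ 2 = 2 * ρ * (ρ + ζ.im) := by
    rw [Complex.sq_norm, Complex.normSq_apply]
    simp
    nlinarith
  have hx0 : 0 ≤ x := norm_nonneg _
  have hx2 : x ^ 2 * (ρ + ζ.im) = ρ - ζ.im := by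
    rw [hxe, div_pow, n1, n2]
    have : ρ + ζ.im ≠ 0 := by positivity
    field_simp
  have hx1 : x < 1 := by
    by_contra hc
    push Not at hc
    have : 1 ≤ x ^ 2 := one_le_pow₀ hc
    nlinarith
  rw [hdist, ← hx]
  apply mul_le_mul_of_nonneg_left _ (by norm_num)
  have hx1' : 0 < 1 - x := by linarith
  apply Real.log_le_log (by positivity)
  rw [div_le_div_iff₀ hx1' hζ]
  have h9 : (1 - x ^ 2) * (ρ + ζ.im) = 2 * ζ.im := by linarith
  have h10 : 2 * ζ.im ≤ (1 - x ^ 2) * (2 * ρ) := by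
    rw [← h9]
    apply mul_le_mul_of_nonneg_left (by linarith)
    nlinarith
  have h11 : (1 - x ^ 2) = (1 - x) * (1 + x) := by ring
  have h12 : 0 ≤ (1 - x) * ρ := by positivity
  rw [h11] at h10
  nlinarith [mul_nonneg h12 (by linarith : (0 : ℝ) ≤ 1 + x), mul_nonneg h12 hx1'.le]

theorem half_le_tanh {a : ℝ} (ha : 1 ≤ a) : Real.cosh a ≤ 2 * Real.sinh a := by
  rw [Real.cosh_eq, Real.sinh_eq]
  have h1 : 1 + a ≤ Real.exp a := by
    have := Real.add_one_le_exp a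
    linarith
  have h2 : Real.exp (-a) * Real.exp a = 1 := by
    rw [← Real.exp_add]
    simp
  have h3 : 0 < Real.exp (-a) := Real.exp_pos _
  have h4 : 2 ≤ Real.exp a := by linarith
  nlinarith

/-- The upper bound for the tangential speed. -/
theorem speed_le : ∃ C t₀ : ℝ, ∀ t : ℝ, t₀ ≤ t →
    tangentialSpeed φ 1 t ≤ 1 / 4 * Real.log t + C := by
  have h0 : (0 : ℂ) ∈ Disc := by simp [Disc]
  set s₀ := Ψ 0 with hs₀
  have hs : s₀ ∈ S := Ψ_mem h0
  set k : ℝ := s₀.re * s₀.im with hk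
  have hk0 : 0 < k := mul_pos hs.1 hs.2.1
  refine ⟨1 / 2 * Real.log (8 * Real.pi / k), Real.pi ^ 2 + k ^ 2 + 1 + ‖s₀ ^ 2‖, fun t ht => ?_⟩
  have ht0 : 0 < t := lt_of_lt_of_le (by positivity) ht
  have hψ := ψ_mem hs ht0.le
  set s := ψ t s₀ with hsd
  set ζ := Complex.cosh s with hζ
  have hζi : 0 < ζ.im := cosh_im_pos hψ
  have h1 : tangentialSpeed φ 1 t ≤ 1 / 2 * Real.log (4 * ‖ζ‖ / ζ.im) := by
    have hρ : 0 < ‖ζ‖ := lt_of_lt_of_le hζi (Complex.im_le_norm ζ)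
    have hr : (‖ζ‖ - 1) / (‖ζ‖ + 1) ∈ Ioo (-1 : ℝ) 1 := by
      constructor
      · rw [lt_div_iff₀ (by positivity)]
        linarith
      · rw [div_lt_one (by positivity)]
        linarith
    have h2 := proj_le (norm_one (α := ℂ)) (cayley_mem hζi) hr
    rw [mul_one] at h2
    exact h2.trans (hdist_le hζi)
  have hre := ψ_re_sq hs t
  have hsq : k ^ 2 + 1 ≤ s.re ^ 2 := by linarith [norm_nonneg (s₀ ^ 2)]
  have hsre : 0 < s.re := hψ.1
  have ha1 : 1 ≤ s.re := by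
    apply le_of_sq_le_sq _ hsre.le
    nlinarith
  have hak : k ≤ s.re := by
    apply le_of_sq_le_sq _ hsre.le
    nlinarith
  have hprod : s.re * s.im = k := ψ_prod hs t
  have hb1 : s.im ≤ 1 := by
    by_contra hc
    push Not at hc
    nlinarith
  have hsin : 2 / Real.pi * s.im ≤ Real.sin s.im :=
    Real.mul_le_sin hψ.2.1.le (by linarith [Real.pi_gt_three])
  have hup : s.re ^ 2 ≤ 4 * t := by
    have e1 : ‖s ^ 2‖ ≤ ‖s₀ ^ 2‖ + t := by
      rw [ψ_sq hs t]
      refine (norm_add_le _ _).trans ?_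
      rw [Complex.norm_real, Real.norm_eq_abs, abs_of_pos ht0]
    have e2 : s.re ^ 2 ≤ ‖s ^ 2‖ := by
      rw [norm_pow, Complex.sq_norm, Complex.normSq_apply]
      nlinarith [sq_nonneg s.im]
    have e3 : ‖s₀ ^ 2‖ ≤ t := by
      nlinarith [sq_nonneg Real.pi, sq_nonneg k]
    linarith
  have hup2 : s.re ≤ 2 * √t := by
    apply le_of_sq_le_sq _ (by positivity)
    rw [mul_pow, Real.sq_sqrt ht0.le]
    linarith
  -- the ratio
  have hsqrt : 0 < √t := Real.sqrt_pos.2 ht0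
  have hratio : 4 * ‖ζ‖ / ζ.im ≤ 8 * Real.pi / k * √t := by
    have hζim : ζ.im = Real.sinh s.re * Real.sin s.im := cosh_im s
    have hζn : ‖ζ‖ ≤ Real.cosh s.re := by
      apply le_of_sq_le_sq _ (Real.cosh_pos _).le
      rw [hζ, norm_cosh_sq, Real.cosh_sq]
      nlinarith [Real.sin_sq_add_cos_sq s.im, sq_nonneg (Real.sin s.im)]
    have htanh := half_le_tanh ha1
    have hsinh : 0 < Real.sinh s.re := Real.sinh_pos_iff.2 hsre
    rw [div_le_iff₀ hζi, hζim]
    have e1 : k ≤ 2 * √t * s.im := by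
      rw [← hprod]
      exact mul_le_mul_of_nonneg_right hup2 hψ.2.1.le
    have e2 : k / Real.pi ≤ √t * Real.sin s.im := by
      have e3 : √t * (2 / Real.pi * s.im) ≤ √t * Real.sin s.im :=
        mul_le_mul_of_nonneg_left hsin hsqrt.le
      refine le_trans ?_ e3
      rw [div_le_iff₀ Real.pi_pos]
      have : √t * (2 / Real.pi * s.im) * Real.pi = 2 * √t * s.im := by
        have := Real.pi_pos.ne'
        field_simp
      rw [this]
      exact e1
    calc 4 * ‖ζ‖ ≤ 4 * (2 * Real.sinh s.re) := by linarith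
      _ = 8 * Real.pi / k * (k / Real.pi) * Real.sinh s.re := by
          have := Real.pi_pos.ne'
          field_simp
          ring
      _ ≤ 8 * Real.pi / k * (√t * Real.sin s.im) * Real.sinh s.re := by
          apply mul_le_mul_of_nonneg_right _ hsinh.le
          apply mul_le_mul_of_nonneg_left e2
          have := Real.pi_pos
          positivity
      _ = _ := by ring
  have hpos : 0 < 4 * ‖ζ‖ / ζ.im := by
    have hρ : 0 < ‖ζ‖ := lt_of_lt_of_le hζi (Complex.im_le_norm ζ)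
    positivity
  have hC : 0 < 8 * Real.pi / k := by
    have := Real.pi_pos
    positivity
  calc tangentialSpeed φ 1 t ≤ 1 / 2 * Real.log (4 * ‖ζ‖ / ζ.im) := h1
    _ ≤ 1 / 2 * Real.log (8 * Real.pi / k * √t) := by
        apply mul_le_mul_of_nonneg_left _ (by norm_num)
        exact Real.log_le_log hpos hratio
    _ = _ := by
        rw [Real.log_mul hC.ne' hsqrt.ne', Real.log_sqrt ht0.le]
        ring

/-- **Negative answer to Q1.** There is a parabolic semigroup of positive hyperbolic step whose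
tangential speed is at most `1/4 log t + C` for all large `t`; in particular `(∗)` fails. -/
theorem result : ∃ (φ : ℝ → ℂ → ℂ) (τ : ℂ), IsParabolicPositiveStep φ ∧ IsDenjoyWolff φ τ ∧
    (∃ C t₀ : ℝ, ∀ t : ℝ, t₀ ≤ t → tangentialSpeed φ τ t ≤ 1 / 4 * Real.log t + C) ∧
    ¬ ∃ C : ℝ, 0 < C ∧ ∀ t : ℝ, 1 ≤ t → |tangentialSpeed φ τ t - 1 / 2 * Real.log t| < C := by
  refine ⟨φ, 1, ⟨isNonElliptic, koenigs, isKoenigs, 0, Or.inr baseDomain_eq⟩, isDenjoyWolff,
    speed_le, ?_⟩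
  rintro ⟨C, -, hC⟩
  obtain ⟨C', t₀, h⟩ := speed_le
  have h1 : Tendsto (fun t : ℝ => 1 / 4 * Real.log t) atTop atTop :=
    Real.tendsto_log_atTop.const_mul_atTop (by norm_num)
  obtain ⟨t, ht1, ht2, ht3⟩ := ((h1.eventually_gt_atTop (C + C')).and
    ((eventually_ge_atTop t₀).and (eventually_ge_atTop 1))).exists
  have h2 := h t ht2
  have h3 := (abs_lt.1 (hC t ht3)).1
  linarith

end Pool.Agent.Results.MP_ab13d2_an.HalfParabola
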